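import Pool.Agent.Q247.EL.Values

/-!
# Most pairs of exponential-logarithmic towers have no common upper bound

Let `l = ln c`.  Every element of the tower with base `c = e ^ l` is the value at `l` of one of
countably many holomorphic functions on rational discs: the family is closed under algebraic
operations and solutions of polynomial equations, under `f ↦ exp (z f(z))` and its inverse
(`Pool.Agent.Q247.EL`).  If `a` is not one of the countably many constants in this family, then there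
are only countably many `l` such that one of these functions has the value `a` at `l`.  Hence all
towers containing `a` have only countably many elements altogether, and no tower contains `a` and
`b` if `b` is outside this countable set.
-/

set_option autoImplicit false

open Set

namespace Pool.Agent.Results.MP_21d915_nt.NoCommonTower

/-- The fields `EL_n` with base `b`: `EL_0 = ℚ`, and `EL_{n+1}` consists of the complex numbers
algebraic over the field generated by `EL_n`, the powers `b ^ x = exp (x ln b)`, `x ∈ EL_n` (`ln`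
the principal value), and the numbers `w` with `b ^ w ∈ EL_n`. -/
noncomputable def EL (b : ℂ) : ℕ → Set ℂ
  | 0 => Set.range (fun q : ℚ => (q : ℂ))
  | n + 1 => {z | IsAlgebraic (IntermediateField.adjoin ℚ
      (EL b n ∪ {y | ∃ x ∈ EL b n, y = b ^ x} ∪ {w | b ^ w ∈ EL b n})) z}

/-- The exponential-logarithmic tower with base `b`. -/
def tower (b : ℂ) : Set ℂ := ⋃ n : ℕ, EL b n

theorem tower_subset (c : ℂ) (h0 : c ≠ 0) (h1 : c ≠ 1) : tower c ⊆ Q247.EL.V (Complex.log c) := by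
  have hl : Complex.log c ≠ 0 := by
    intro h
    apply h1
    rw [← Complex.exp_log h0, h, Complex.exp_zero]
  have key : ∀ n, EL c n ⊆ Q247.EL.V (Complex.log c) := by
    intro n
    induction n with
    | zero =>
      rintro _ ⟨q, rfl⟩
      exact Q247.EL.rat_mem _ hl q
    | succ n ih =>
      intro z hz
      refine Q247.EL.alg_adjoin_mem _ hl _ ?_ z hz
      rintro x ((hx | ⟨y, hy, rfl⟩) | hx)
      · exact ih hx
      · rw [Complex.cpow_def_of_ne_zero h0]
        exact Q247.EL.exp_mem _ _ (ih hy)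
      · rw [mem_ofPred_eq, Complex.cpow_def_of_ne_zero h0] at hx
        exact Q247.EL.log_mem _ _ (ih hx)
  exact iUnion_subset key

theorem self_mem_tower (a : ℂ) : a ∈ tower a := by
  refine mem_iUnion.2 ⟨1, ?_⟩
  show IsAlgebraic _ a
  have h1 : (1 : ℂ) ∈ EL a 0 := ⟨1, by simp⟩
  have h2 : a ∈ (EL a 0 ∪ {y | ∃ x ∈ EL a 0, y = a ^ x} ∪ {w | a ^ w ∈ EL a 0}) :=
    Or.inl (Or.inr ⟨1, h1, by rw [Complex.cpow_one]⟩)
  exact isAlgebraic_algebraMap (⟨a, IntermediateField.subset_adjoin ℚ _ h2⟩ :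
    IntermediateField.adjoin ℚ (EL a 0 ∪ {y | ∃ x ∈ EL a 0, y = a ^ x} ∪ {w | a ^ w ∈ EL a 0}))

theorem strong : ∃ Z : Set ℂ, Z.Countable ∧ ∀ a : ℂ, a ∉ Z → ∃ Y : Set ℂ, Y.Countable ∧
    ∀ b : ℂ, b ∉ Y → a ≠ 0 ∧ a ≠ 1 ∧ b ≠ 0 ∧ b ≠ 1 ∧
      ∀ c : ℂ, c ≠ 0 → c ≠ 1 → ¬ (tower a ⊆ tower c ∧ tower b ⊆ tower c) := by
  refine ⟨Q247.EL.Z ∪ {0, 1}, Q247.EL.countable_Z.union
    ((countable_singleton (1 : ℂ)).insert 0), fun a ha => ?_⟩
  rw [mem_union, not_or] at ha
  obtain ⟨ha1, ha2⟩ := ha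
  have ha0 : a ≠ 0 := fun h => ha2 (by rw [h]; exact mem_insert _ _)
  have ha1' : a ≠ 1 := fun h => ha2 (by rw [h]; exact mem_insert_of_mem _ rfl)
  refine ⟨(⋃ l ∈ {l | a ∈ Q247.EL.V l}, Q247.EL.V l) ∪ {0, 1},
    ((Q247.EL.countable_l a ha1).biUnion fun l _ => Q247.EL.countable_V l).union
      ((countable_singleton (1 : ℂ)).insert 0), fun b hb => ?_⟩
  rw [mem_union, not_or] at hb
  obtain ⟨hb1, hb2⟩ := hb
  have hb0 : b ≠ 0 := fun h => hb2 (by rw [h]; exact mem_insert _ _)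
  have hb1' : b ≠ 1 := fun h => hb2 (by rw [h]; exact mem_insert_of_mem _ rfl)
  refine ⟨ha0, ha1', hb0, hb1', fun c hc0 hc1 => ?_⟩
  rintro ⟨hac, hbc⟩
  have h1 : a ∈ Q247.EL.V (Complex.log c) :=
    tower_subset c hc0 hc1 (hac (self_mem_tower a))
  have h2 : b ∈ Q247.EL.V (Complex.log c) :=
    tower_subset c hc0 hc1 (hbc (self_mem_tower b))
  exact hb1 (mem_biUnion h1 h2)

/-- **Main result.** There are `a, b ∉ {0, 1}` such that no tower `EL^(c)`, `c ∉ {0, 1}`, contains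
both `EL^(a)` and `EL^(b)`. Moreover this holds for all `a` outside a countable set and all `b`
outside a countable set depending on `a`. -/
theorem result :
    (∃ a b : ℂ, a ≠ 0 ∧ a ≠ 1 ∧ b ≠ 0 ∧ b ≠ 1 ∧
      ∀ c : ℂ, c ≠ 0 → c ≠ 1 → ¬ (tower a ⊆ tower c ∧ tower b ⊆ tower c)) ∧
    ∃ Z : Set ℂ, Z.Countable ∧ ∀ a : ℂ, a ∉ Z → ∃ Y : Set ℂ, Y.Countable ∧
      ∀ b : ℂ, b ∉ Y → a ≠ 0 ∧ a ≠ 1 ∧ b ≠ 0 ∧ b ≠ 1 ∧
        ∀ c : ℂ, c ≠ 0 → c ≠ 1 → ¬ (tower a ⊆ tower c ∧ tower b ⊆ tower c) := by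
  refine ⟨?_, strong⟩
  have hunc : ∀ S : Set ℂ, S.Countable → ∃ x, x ∉ S := by
    intro S hS
    by_contra hcon
    push Not at hcon
    have : S = univ := eq_univ_of_forall hcon
    rw [this] at hS
    exact not_countable_complex hS
  obtain ⟨Z, hZ, h⟩ := strong
  obtain ⟨a, ha⟩ := hunc Z hZ
  obtain ⟨Y, hY, h2⟩ := h a ha
  obtain ⟨b, hb⟩ := hunc Y hY
  exact ⟨a, b, h2 b hb⟩

end Pool.Agent.Results.MP_21d915_nt.NoCommonTower
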